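import Pool.Agent.V5helper41.PD.Stm

/-!
# Project PD, job CYC: the Galois group of a Kummer extension of the cyclotomic closure is cyclic
-/

set_option autoImplicit false

namespace V5helper69.PD

open IntermediateField Polynomial
open Pool.Agent.H58P (Qb)
open Pool.Agent.W237.RK
open V5helper41.PD

/-- the field where two automorphisms agree -/
noncomputable def eqF (s t : Aut) : GF where
  carrier := {x | s x = t x}
  mul_mem' {x y} hx hy := by
    change s (x * y) = t (x * y)
    rw [map_mul, map_mul, show s x = t x from hx, show s y = t y from hy]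
  add_mem' {x y} hx hy := by
    change s (x + y) = t (x + y)
    rw [map_add, map_add, show s x = t x from hx, show s y = t y from hy]
  algebraMap_mem' q := by
    change s (algebraMap ℚ Qb q) = t (algebraMap ℚ Qb q)
    rw [AlgEquiv.commutes, AlgEquiv.commutes]
  inv_mem' x hx := by
    change s x⁻¹ = t x⁻¹
    rw [map_inv₀, map_inv₀, show s x = t x from hx]

theorem agree {s t : Aut} {θ : Qb} (h1 : ∀ x ∈ Kmu, s x = t x) (h2 : s θ = t θ) :
    ∀ x ∈ Kx θ, s x = t x := by
  have h3 : Kx θ ≤ eqF s t := by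
    unfold Kx
    refine sup_le (fun x hx => h1 x hx) ?_
    rw [IntermediateField.adjoin_simple_le_iff]
    exact h2
  exact fun x hx => h3 hx

theorem t_CYC : S_CYC := by
  intro a n θ ha hn hθ
  have hθ0 : θ ≠ 0 := by
    rintro rfl
    rw [zero_pow hn.ne'] at hθ
    have h0 : (a : Qb) ≠ 0 := Nat.cast_ne_zero.2 (by omega)
    exact h0 hθ.symm
  have : NeZero n := ⟨hn.ne'⟩
  have ha0 : (a : Qb) ≠ 0 := Nat.cast_ne_zero.2 (by omega)
  have hroot : ∀ s : Aut, (s θ / θ) ^ n = 1 := by
    intro s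
    rw [div_pow, ← map_pow, hθ, map_natCast, div_self ha0]
  have hmem : ∀ s : Aut, s θ / θ ∈ Kmu := fun s => subset_adjoin _ _ ⟨n, hn, hroot s⟩
  have hfix : ∀ s : Kmu.fixingSubgroup, ∀ x ∈ Kmu, s.1 x = x := fun s x hx =>
    (IntermediateField.mem_fixingSubgroup_iff _ _).1 s.2 x hx
  let f : Kmu.fixingSubgroup →* Qbˣ :=
    { toFun := fun s => Units.mk0 (s.1 θ / θ) (div_ne_zero ((map_ne_zero s.1).2 hθ0) hθ0)
      map_one' := by
        ext
        change (1 : Aut) θ / θ = 1
        rw [AlgEquiv.one_apply, div_self hθ0]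
      map_mul' := fun s t => by
        ext
        change (s.1 * t.1) θ / θ = (s.1 θ / θ) * (t.1 θ / θ)
        have h1 : t.1 θ = (t.1 θ / θ) * θ := (div_mul_cancel₀ _ hθ0).symm
        have h2 : s.1 (t.1 θ) = (t.1 θ / θ) * s.1 θ := by
          conv_lhs => rw [h1]
          rw [map_mul, hfix s _ (hmem t.1)]
        rw [AlgEquiv.mul_apply, h2]
        ring }
  have hfv : ∀ s, ((f s : Qbˣ) : Qb) = s.1 θ / θ := fun s => rfl
  have hf : ∀ s, f s ∈ rootsOfUnity n Qb := by
    intro s
    rw [mem_rootsOfUnity']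
    exact hroot s.1
  let f' : Kmu.fixingSubgroup →* rootsOfUnity n Qb := f.codRestrict (rootsOfUnity n Qb) hf
  obtain ⟨⟨g, s₀, hs₀⟩, hg⟩ := IsCyclic.exists_generator (α := f'.range)
  refine ⟨s₀.1, fun x hx => hfix s₀ x hx, fun s hs => ?_⟩
  let s' : Kmu.fixingSubgroup := ⟨s, (IntermediateField.mem_fixingSubgroup_iff _ _).2 hs⟩
  have h1 := hg ⟨f' s', s', rfl⟩
  rw [← mem_powers_iff_mem_zpowers] at h1
  obtain ⟨j, hj⟩ := h1
  refine ⟨j, agree (fun x hx => ?_) ?_⟩
  · rw [hs x hx]
    exact (hfix (s₀ ^ j) x hx).symm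
  · have h2 : f' (s₀ ^ j) = f' s' := by
      rw [map_pow, hs₀]
      exact congrArg Subtype.val hj
    have h3 : f (s₀ ^ j) = f s' := congrArg Subtype.val h2
    have h4 : (s₀ ^ j).1 θ / θ = s θ / θ := by
      rw [← hfv, h3]
      rfl
    exact ((div_left_inj' hθ0).1 h4).symm

end V5helper69.PD
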